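import Mathlib

namespace Pool.Agent.Results.MP_304c86_co.Counter

variable {A : Type}

def factor (x : ℕ → A) (i n : ℕ) : List A := (List.range n).map fun j => x (i + j)

/-- `u` occurs in `w` starting at position `p` -/
def OccursAt (u w : List A) (p : ℕ) : Prop := p + u.length ≤ w.length ∧ u <+: w.drop p

def Closed (w : List A) : Prop :=
  w.length ≤ 1 ∨ ∃ u : List A, u.length < w.length ∧
    ∀ p, OccursAt u w p ↔ p = 0 ∨ p = w.length - u.length

noncomputable def cl (x : ℕ → A) (n : ℕ) : ℕ := {w | (∃ i, w = factor x i n) ∧ Closed w}.ncard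

def Aperiodic (x : ℕ → A) : Prop := ¬ ∃ p, 0 < p ∧ ∃ N, ∀ i, N ≤ i → x (i + p) = x i

def Syndetic (S : Set ℕ) : Prop := ∃ g, ∀ a, ∃ s ∈ S, a ≤ s ∧ s < a + g

def Thick (T : Set ℕ) : Prop := ∀ l, ∃ a, ∀ s, a ≤ s → s < a + l → s ∈ T

def PiecewiseSyndetic (S : Set ℕ) : Prop := ∃ S₁ T, Syndetic S₁ ∧ Thick T ∧ S = S₁ ∩ T

open Classical in
noncomputable def x (i : ℕ) : Bool := decide (∃ k, i = 4 ^ k)

theorem xt {i : ℕ} : x i = true ↔ ∃ k, i = 4 ^ k := by simp [x]

theorem gap {i j : ℕ} (hi : x i = true) (hj : x j = true) (h : i < j) : 4 * i ≤ j := by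
  obtain ⟨a, rfl⟩ := xt.1 hi
  obtain ⟨b, rfl⟩ := xt.1 hj
  rw [← pow_succ']
  exact Nat.pow_le_pow_right (by norm_num) ((Nat.pow_lt_pow_iff_right (by norm_num)).1 h)

theorem occ {y : ℕ → A} {i n L p : ℕ} :
    OccursAt (factor y i L) (factor y i n) p ↔ p + L ≤ n ∧ ∀ j < L, y (i + j) = y (i + (p + j)) := by
  simp only [OccursAt, factor, List.length_map, List.length_range]
  refine and_congr_right fun h => ?_
  rw [List.prefix_iff_eq_take]
  simp only [List.length_map, List.length_range]
  refine ⟨fun e j hj => ?_, fun e => List.ext_getElem (by simp; omega) fun j h1 _ => ?_⟩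
  · have := congrArg (·[j]?) e
    simpa [hj, show p + j < n by omega] using this
  · simpa using e j (by simpa using h1)

theorem closed_iff {y : ℕ → A} {i n : ℕ} (hn : 1 < n) (h : Closed (factor y i n)) :
    ∃ L < n, ∀ p, (p + L ≤ n ∧ ∀ j < L, y (i + j) = y (i + (p + j))) ↔ p = 0 ∨ p = n - L := by
  have hl : (factor y i n).length = n := by simp [factor]
  rcases h with h | ⟨u, h1, h2⟩
  · omega
  · rw [hl] at h1 h2
    have : u = factor y i u.length := by
      have := ((h2 0).2 (.inl rfl)).2
      rw [List.drop_zero, List.prefix_iff_eq_take] at this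
      rw [this]
      exact List.ext_getElem (by simp [factor]) fun j _ _ => by simp [factor]
    refine ⟨u.length, h1, fun p => ?_⟩
    rw [← h2, ← occ, ← this]

theorem key {i n K : ℕ} (hK : x K = true) (h1 : 2 * K + 2 ≤ n) (h2 : n ≤ 3 * K)
    (h : Closed (factor x i n)) : ∀ j < n, x (i + j) = true → 2 * j + 1 = n ∧ K < i := by
  obtain ⟨L, hL, h⟩ := closed_iff (by omega) h
  have hb := ((h (n - L)).2 (.inr rfl)).2
  intro t ht hx
  -- `t'` is the last position of a 1
  obtain ⟨e, he, hxe, hte, hz⟩ : ∃ e < n, x (i + e) = true ∧ t ≤ e ∧ ∀ j, e < j → j < n → x (i + j) = false := by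
    classical
    refine ⟨Nat.findGreatest (fun j => x (i + j) = true) (n - 1), ?_,
      Nat.findGreatest_spec (P := fun j => x (i + j) = true) (m := t) (by omega) hx,
      Nat.le_findGreatest (by omega) hx, fun j h1 h2 => ?_⟩
    · have := Nat.findGreatest_le (P := fun j => x (i + j) = true) (n - 1); omega
    · simpa using Nat.findGreatest_is_greatest h1 (by omega)
  have g : ∀ a b, x a = true → x b = true → a < b → 4 * a ≤ b := fun _ _ => gap
  have hLe : L + e < n := by
    by_contra hc
    have a1 : x (i + (e - (n - L))) = true := by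
      rw [hb _ (by omega), show n - L + (e - (n - L)) = e by omega, hxe]
    have a2 := hb e
    have a3 := hz (n - L + e)
    have := g _ _ a1 hxe (by omega)
    rcases lt_trichotomy (i + e) K with c | c | c
    · have := hz (K - i) (by omega) (by omega)
      rw [show i + (K - i) = K by omega, hK] at this
      exact absurd this (by simp)
    · rw [a2 (by omega), a3 (by omega) (by omega)] at hxe
      exact absurd hxe (by simp)
    · have := g _ _ hK hxe c
      rcases lt_trichotomy (i + (e - (n - L))) K with c | c | c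
      · omega
      · omega
      · have := g _ _ hK a1 c
        omega
  have hp : ∀ j < L, x (i + j) = false := fun j hj => by rw [hb j hj, hz _ (by omega) (by omega)]
  have hLt : L ≤ t := by
    by_contra hc
    rw [hp t (by omega)] at hx
    exact absurd hx (by simp)
  have hE : L + e + 1 = n := by
    by_contra hc
    have := (h (n - L - 1)).1 ⟨by omega, fun j hj => by rw [hp j hj, hz _ (by omega) (by omega)]⟩
    omega
  have hi : K < i := by
    by_contra hc
    rcases lt_trichotomy (i + e) K with c | c | c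
    · have := hz (K - i) (by omega) (by omega)
      rw [show i + (K - i) = K by omega, hK] at this
      exact absurd this (by simp)
    · omega
    · have := g _ _ hK hxe c
      omega
  have one : ∀ j < e, x (i + j) = false := fun j hj => by
    by_contra hc
    have hc : x (i + j) = true := by simpa using hc
    have := g _ _ hK hc (by omega)
    have := g _ _ hc hxe (by omega)
    omega
  have ht' : t = e := by
    by_contra hc
    rw [one t (by omega)] at hx
    exact absurd hx (by simp)
  refine ⟨?_, hi⟩
  by_contra hc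
  have := (h 1).1 ⟨by omega, fun j hj => by rw [hp j hj, one _ (by omega)]⟩
  omega

theorem result : ∃ (A : Type) (_ : Fintype A) (x : ℕ → A) (S : Set ℕ),
    Aperiodic x ∧ PiecewiseSyndetic S ∧ ∃ C, ∀ n ∈ S, cl x n ≤ C := by
  refine ⟨Bool, inferInstance, x, {n | ∃ K, x K = true ∧ 2 * K + 2 ≤ n ∧ n ≤ 3 * K}, ?_,
    ⟨Set.univ, _, ⟨1, fun a => ⟨a, trivial, le_rfl, by omega⟩⟩, fun l => ?_, (Set.univ_inter _).symm⟩,
    2, ?_⟩
  · rintro ⟨p, hp, N, h⟩
    have h1 : N + p < 4 ^ (N + p) := Nat.lt_pow_self (by norm_num)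
    have h2 : x (4 ^ (N + p)) = true := xt.2 ⟨_, rfl⟩
    have := gap h2 ((h _ (by omega)).trans h2) (by omega)
    omega
  · have h1 : l < 4 ^ l := Nat.lt_pow_self (by norm_num)
    exact ⟨2 * 4 ^ l + 2, fun s a b => ⟨4 ^ l, xt.2 ⟨_, rfl⟩, a, by
      rcases l with _ | l
      · omega
      · have : l < 4 ^ l := Nat.lt_pow_self (by norm_num)
        omega⟩⟩
  · rintro n ⟨K, hK, h1, h2⟩
    refine (Set.ncard_le_ncard (t := {(List.range n).map fun _ => false,
      (List.range n).map fun j => decide (2 * j + 1 = n)}) ?_).trans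
      ((Set.ncard_insert_le _ _).trans (by simp))
    rintro w ⟨⟨i, rfl⟩, hc⟩
    have k := key hK h1 h2 hc
    by_cases hz : ∃ j < n, x (i + j) = true
    · obtain ⟨j, hj, hx⟩ := hz
      refine .inr (List.map_congr_left fun t ht => ?_)
      rw [List.mem_range] at ht
      by_cases e : 2 * t + 1 = n
      · have := (k j hj hx).1
        rw [show t = j by omega, hx]
        simp [this]
      · by_contra hc
        exact e (k t ht (by simpa [e] using hc)).1
    · refine .inl (List.map_congr_left fun t ht => ?_)
      by_contra hc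
      exact hz ⟨t, List.mem_range.1 ht, by simpa using hc⟩

end Pool.Agent.Results.MP_304c86_co.Counter
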